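import Pool.Agent.T9h98.DC.Defs

/-!
# Project DC (MP_727bc7_co), piece FACE
-/

set_option autoImplicit false

open Set

namespace Pool.Agent.T9h66.DC

open Pool.Agent.T9h98.DC

/-- the linear functional with the coefficients `a` -/
noncomputable def fn {d : ℕ} (a : Fin d → ℝ) : E d →L[ℝ] ℝ :=
  ∑ i, a i • (EuclideanSpace.proj i : E d →L[ℝ] ℝ)

theorem fn_apply {d : ℕ} (a : Fin d → ℝ) (x : E d) : fn a x = ∑ i, a i * x i := by
  simp [fn]

/-- the sum of the weights of the places where `T` and `N` differ -/
noncomputable def cost {d : ℕ} (b : Fin d → ℝ) (N T : X d) : ℝ :=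
  ∑ i, if T i = N i then 0 else b i

theorem fn_pt {d : ℕ} (b : Fin d → ℝ) (N T : X d) :
    fn (fun i => b i * pt N i) (pt T) = ∑ i, b i - 2 * cost b N T := by
  rw [fn_apply, cost, Finset.mul_sum, ← Finset.sum_sub_distrib]
  refine Finset.sum_congr rfl fun i _ => ?_
  rw [pt_apply, pt_apply]
  rcases zmod2 (T i) with h1 | h1 <;> rcases zmod2 (N i) with h2 | h2 <;> rw [h1, h2] <;>
    norm_num <;> ring

/-- the face of the vertices of minimal cost -/
theorem face_of_cost {d : ℕ} (b : Fin d → ℝ) (N : X d) (c : ℝ) (M : Set (X d))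
    (hM : M.Nonempty) (hle : ∀ T, par T = 0 → c ≤ cost b N T)
    (hmem : ∀ T, T ∈ M ↔ par T = 0 ∧ cost b N T = c) :
    IsFace (demi d) (hull M) ∧ vert (hull M) = M := by
  classical
  obtain ⟨l, hl⟩ : ∃ l : E d →L[ℝ] ℝ, l = fn (fun i => b i * pt N i) := ⟨_, rfl⟩
  obtain ⟨C, hC⟩ : ∃ C : ℝ, C = ∑ i, b i - 2 * c := ⟨_, rfl⟩
  have hlT : ∀ T, l (pt T) = ∑ i, b i - 2 * cost b N T := fun T => by rw [hl, fn_pt]
  have h0 : ∀ T, par T = 0 → l (pt T) ≤ C := by
    intro T hT
    have := hle T hT
    rw [hlT, hC]
    linarith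
  have h0' : ∀ T, par T = 0 → (l (pt T) = C ↔ T ∈ M) := by
    intro T hT
    rw [hlT, hC, hmem]
    constructor
    · intro h; exact ⟨hT, by linarith⟩
    · rintro ⟨_, h⟩; rw [h]
  have h1 : ∀ x ∈ demi d, l x ≤ C := by
    intro x hx
    rw [demi_eq] at hx
    have h : hull {T : X d | par T = 0} ⊆ {x | l x ≤ C} := by
      apply convexHull_min
      · rintro _ ⟨T, hT, rfl⟩
        exact h0 T hT
      · exact convex_halfSpace_le l.toLinearMap.isLinear C
    exact h hx
  have h2 : ∀ x ∈ hull M, l x = C := by
    have h : hull M ⊆ {x | l x = C} := by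
      apply convexHull_min
      · rintro _ ⟨T, hT, rfl⟩
        exact (h0' T ((hmem T).1 hT).1).2 hT
      · exact convex_hyperplane l.toLinearMap.isLinear C
    exact fun x hx => h hx
  have h3 : hull M ⊆ demi d := by
    rw [demi_eq]
    exact convexHull_mono (image_mono fun T hT => ((hmem T).1 hT).1)
  have h4 : ∀ x ∈ demi d, l x = C → x ∈ hull M := by
    intro x hx hxC
    rw [demi_eq] at hx
    let s : Finset (E d) := (Finset.univ.filter (fun T : X d => par T = 0)).image pt
    have hs : pt '' {T : X d | par T = 0} = (s : Set (E d)) := by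
      ext y
      simp [s]
    rw [hull, hs, Finset.mem_convexHull'] at hx
    obtain ⟨w, hw0, hw1, hwx⟩ := hx
    have hsl : ∀ y ∈ s, l y ≤ C := by
      intro y hy
      obtain ⟨T, hT, rfl⟩ := Finset.mem_image.mp hy
      exact h0 T (Finset.mem_filter.mp hT).2
    have hz : ∑ y ∈ s, w y * (C - l y) = 0 := by
      have h5 : l x = ∑ y ∈ s, w y * l y := by
        rw [← hwx, map_sum]
        simp
      simp only [mul_sub]
      rw [Finset.sum_sub_distrib, ← h5, ← Finset.sum_mul, hw1, hxC]
      ring
    have hz' := (Finset.sum_eq_zero_iff_of_nonneg (fun y hy =>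
      mul_nonneg (hw0 y hy) (sub_nonneg.mpr (hsl y hy)))).mp hz
    have hout : ∀ y ∈ s, y ∉ s.filter (fun y => l y = C) → w y = 0 := by
      intro y hy hyn
      rcases mul_eq_zero.mp (hz' y hy) with h | h
      · exact h
      · exact absurd (Finset.mem_filter.mpr ⟨hy, by linarith⟩) hyn
    have ht : x ∈ convexHull ℝ ((s.filter (fun y => l y = C) : Finset (E d)) : Set (E d)) := by
      rw [Finset.mem_convexHull']
      refine ⟨w, fun y hy => hw0 y (Finset.mem_filter.mp hy).1, ?_, ?_⟩
      · rw [← hw1]
        exact Finset.sum_subset (Finset.filter_subset _ _) fun y hy hyn => hout y hy hyn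
      · rw [← hwx]
        exact Finset.sum_subset (Finset.filter_subset _ _) fun y hy hyn => by
          rw [hout y hy hyn, zero_smul]
    refine convexHull_mono ?_ ht
    intro y hy
    obtain ⟨hy1, hy2⟩ := Finset.mem_filter.mp (Finset.mem_coe.mp hy)
    obtain ⟨T, hT, rfl⟩ := Finset.mem_image.mp hy1
    exact ⟨T, (h0' T (Finset.mem_filter.mp hT).2).1 hy2, rfl⟩
  obtain ⟨T₀, hT₀⟩ := hM
  have h5 : pt T₀ ∈ hull M := subset_convexHull ℝ _ ⟨T₀, hT₀, rfl⟩
  refine ⟨⟨⟨pt T₀, h5⟩, fun _ => ⟨l, ?_⟩⟩, ?_⟩
  · ext x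
    constructor
    · intro hx
      exact ⟨h3 hx, fun y hy => by rw [h2 x hx]; exact h1 y hy⟩
    · rintro ⟨hx, hmax⟩
      refine h4 x hx (le_antisymm (h1 x hx) ?_)
      rw [← h2 _ h5]
      exact hmax _ (h3 h5)
  · ext T
    constructor
    · rintro ⟨hT, hTM⟩
      exact (h0' T hT).1 (h2 _ hTM)
    · intro hT
      exact ⟨((hmem T).1 hT).1, subset_convexHull ℝ _ ⟨T, hT, rfl⟩⟩

theorem eq_add_one {a b : ZMod 2} (h : a ≠ b) : a = b + 1 := by
  rcases zmod2 a with h1 | h1 <;> rcases zmod2 b with h2 | h2 <;> subst h1 <;> subst h2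
  · exact absurd rfl h
  · decide
  · decide
  · exact absurd rfl h

theorem face : S_FACE := by
  classical
  intro d M m hM
  rcases hM with ⟨hm, N, Z, hN, hZ, rfl⟩ | ⟨N, I, hN, hI, rfl⟩
  · -- type A
    have hc0 : ∀ T : X d, ∀ i ∈ (Finset.univ : Finset (Fin d)),
        (0 : ℝ) ≤ if T i = N i then 0 else (if i ∈ Z then 0 else 1) := by
      intro T i _
      split_ifs <;> norm_num
    apply face_of_cost (fun i => if i ∈ Z then 0 else 1) N 0
    · obtain ⟨z, hz⟩ : Z.Nonempty := Finset.card_pos.mp (by omega)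
      refine ⟨N + Pi.single z 1, ?_, fun i hi => ?_⟩
      · rw [par_add, hN, par_single]; decide
      · have : i ≠ z := fun h => hi (h ▸ hz)
        simp [this]
    · intro T _
      exact Finset.sum_nonneg (hc0 T)
    · intro T
      constructor
      · rintro ⟨hT, hTN⟩
        refine ⟨hT, ?_⟩
        unfold cost
        apply Finset.sum_eq_zero
        intro i _
        by_cases hi : i ∈ Z
        · simp [hi]
        · simp [hTN i hi]
      · rintro ⟨hT, hTN⟩
        refine ⟨hT, fun i hi => ?_⟩
        have h1 := (Finset.sum_eq_zero_iff_of_nonneg (hc0 T)).mp hTN i (Finset.mem_univ i)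
        by_contra hne
        rw [if_neg hne, if_neg hi] at h1
        norm_num at h1
  · -- type B
    have hb1 : ∀ i : Fin d, (1 : ℝ) ≤ if i ∈ I then 1 else 2 := by
      intro i
      split_ifs <;> norm_num
    have hc0 : ∀ T : X d, ∀ i ∈ (Finset.univ : Finset (Fin d)),
        (0 : ℝ) ≤ if T i = N i then 0 else (if i ∈ I then 1 else 2) := by
      intro T i _
      split_ifs <;> norm_num
    have hge : ∀ (T : X d) (i : Fin d), T i ≠ N i → (if i ∈ I then (1 : ℝ) else 2) ≤
        cost (fun i => if i ∈ I then 1 else 2) N T := by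
      intro T i hi
      have h1 := Finset.single_le_sum (hc0 T) (Finset.mem_univ i)
      rw [if_neg hi] at h1
      exact h1
    have hpar : ∀ T : X d, par T = 0 → ∃ i, T i ≠ N i := by
      intro T hT
      by_contra hcon
      push Not at hcon
      rw [funext hcon, hN] at hT
      exact absurd hT (by decide)
    apply face_of_cost (fun i => if i ∈ I then 1 else 2) N 1
    · obtain ⟨z, hz⟩ : I.Nonempty := Finset.card_pos.mp (by omega)
      exact ⟨N + Pi.single z 1, z, hz, rfl⟩
    · intro T hT
      obtain ⟨i, hi⟩ := hpar T hT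
      exact (hb1 i).trans (hge T i hi)
    · intro T
      constructor
      · rintro ⟨i, hi, rfl⟩
        refine ⟨by rw [par_add, hN, par_single]; decide, ?_⟩
        unfold cost
        rw [Finset.sum_eq_single i]
        · simp [hi]
        · intro j _ hj
          simp [hj]
        · intro h
          exact absurd (Finset.mem_univ i) h
      · rintro ⟨hT, hc⟩
        obtain ⟨i, hi⟩ := hpar T hT
        have hiI : i ∈ I := by
          by_contra hcon
          have h1 := hge T i hi
          rw [if_neg hcon, hc] at h1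
          norm_num at h1
        have huniq : ∀ j, T j ≠ N j → j = i := by
          intro j hj
          by_contra hne
          have h1 : ∑ k ∈ ({i, j} : Finset (Fin d)),
              (if T k = N k then (0 : ℝ) else (if k ∈ I then 1 else 2)) ≤
              cost (fun i => if i ∈ I then 1 else 2) N T :=
            Finset.sum_le_sum_of_subset_of_nonneg (Finset.subset_univ _) fun k hk _ => hc0 T k
              (Finset.mem_univ k)
          rw [Finset.sum_pair (Ne.symm hne), if_neg hi, if_neg hj, hc] at h1
          have h2 := hb1 i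
          have h3 := hb1 j
          linarith
        refine ⟨i, hiI, ?_⟩
        funext j
        by_cases hj : j = i
        · subst hj
          rw [Pi.add_apply, Pi.single_eq_same]
          exact eq_add_one hi
        · rw [Pi.add_apply, Pi.single_eq_of_ne hj, add_zero]
          by_contra hne
          exact hj (huniq j hne)

end Pool.Agent.T9h66.DC
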