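import Pool.Agent.T9h98.DC.Defs

/-!
# Project DC (MP_727bc7_co), piece NF: the normal form of a chain
-/

set_option autoImplicit false

open Set

namespace Pool.Agent.T9h66.DC

open Pool.Agent.T9h98.DC

theorem add_single_inj {d : ℕ} (N : X d) :
    Function.Injective (fun i : Fin d => N + (Pi.single i 1 : X d)) := by
  intro i j h
  have h1 : (Pi.single i 1 : X d) = Pi.single j 1 := add_left_cancel h
  by_contra hne
  have h2 := congrFun h1 i
  rw [Pi.single_eq_same, Pi.single_eq_of_ne hne] at h2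
  exact absurd h2 (by decide)

theorem fB_eq {d : ℕ} (N : X d) (I : Finset (Fin d)) :
    fB N I = (fun i : Fin d => N + (Pi.single i 1 : X d)) '' (I : Set (Fin d)) := by
  ext T
  constructor
  · rintro ⟨i, hi, rfl⟩; exact ⟨i, hi, rfl⟩
  · rintro ⟨i, hi, rfl⟩; exact ⟨i, hi, rfl⟩

theorem ncard_fB {d : ℕ} (N : X d) (I : Finset (Fin d)) : (fB N I).ncard = I.card := by
  rw [fB_eq, Set.ncard_image_of_injective _ (add_single_inj N), Set.ncard_coe_finset]

theorem fB_sub {d : ℕ} {N : X d} {I I' : Finset (Fin d)} (h : fB N I ⊆ fB N I') : I ⊆ I' := by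
  intro i hi
  obtain ⟨j, hj, hij⟩ := h ⟨i, hi, rfl⟩
  have : i = j := add_single_inj N hij
  rw [this]
  exact hj

/-- chains of sets of sizes `0, …, d` are given by permutations -/
theorem exists_perm {d : ℕ} (F : ℕ → Finset (Fin d)) (hc : ∀ k ≤ d, (F k).card = k)
    (hm : ∀ k < d, F k ⊆ F (k + 1)) : ∃ π : Equiv.Perm (Fin d), ∀ k ≤ d, J π k = F k := by
  classical
  have hmono : ∀ k l, k ≤ l → l ≤ d → F k ⊆ F l := by
    intro k l hkl
    induction l, hkl using Nat.le_induction with
    | base => intro _; exact subset_rfl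
    | succ l _ ih => intro hl; exact (ih (by omega)).trans (hm l (by omega))
  have huniv : F d = Finset.univ := by
    apply Finset.eq_univ_of_card
    rw [hc d le_rfl, Fintype.card_fin]
  have hex : ∀ x : Fin d, ∃ k, x ∈ F (k + 1) ∧ k < d := by
    intro x
    have hd : 0 < d := lt_of_le_of_lt (Nat.zero_le _) x.isLt
    exact ⟨d - 1, by rw [Nat.sub_add_cancel hd, huniv]; exact Finset.mem_univ x, by omega⟩
  let r : Fin d → Fin d := fun x => ⟨Nat.find (hex x), (Nat.find_spec (hex x)).2⟩
  have hr1 : ∀ x, x ∈ F ((r x : ℕ) + 1) := fun x => (Nat.find_spec (hex x)).1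
  have hr : ∀ x, ∀ k ≤ d, (x ∈ F k ↔ (r x : ℕ) < k) := by
    intro x k hk
    constructor
    · intro hx
      rcases k with _ | k
      · have h0 := hc 0 (Nat.zero_le _)
        rw [Finset.card_eq_zero] at h0
        rw [h0] at hx
        exact absurd hx (Finset.notMem_empty x)
      · exact Nat.lt_succ_of_le (Nat.find_min' (hex x) ⟨hx, by omega⟩)
    · intro h
      exact hmono _ _ (Nat.succ_le_of_lt h) hk (hr1 x)
  have hsurj : Function.Surjective r := by
    intro k
    have h1 : (F k).card < (F (k + 1)).card := by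
      rw [hc k k.isLt.le, hc (k + 1) k.isLt]
      exact Nat.lt_succ_self _
    obtain ⟨x, hx, hxn⟩ := Finset.exists_mem_notMem_of_card_lt_card h1
    refine ⟨x, Fin.ext ?_⟩
    have h2 := (hr x (k + 1) k.isLt).1 hx
    have h3 : ¬ (r x : ℕ) < k := fun h => hxn ((hr x k k.isLt.le).2 h)
    omega
  have hbij : Function.Bijective r := ⟨Finite.injective_iff_surjective.mpr hsurj, hsurj⟩
  refine ⟨(Equiv.ofBijective r hbij).symm, fun k hk => ?_⟩
  ext x
  rw [J, Finset.mem_filter, hr x k hk, Equiv.symm_symm]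
  simp

theorem nf : S_MONO → S_NF := by
  classical
  rintro ⟨-, -, m3, m4, m5⟩ d hd M hM hR
  let isB : Fin d → Prop := fun i =>
    ∃ (N : X d) (I : Finset (Fin d)), par N = 1 ∧ I.card = (i : ℕ) + 1 ∧ M i = fB N I
  have hAB : ∀ i, isB i ∨ (3 ≤ (i : ℕ) ∧
      ∃ (N : X d) (Z : Finset (Fin d)), par N = 1 ∧ Z.card = (i : ℕ) ∧ M i = fA N Z) :=
    fun i => (hR i).symm
  have h2B : isB ⟨2, by omega⟩ := by
    rcases hAB ⟨2, by omega⟩ with h | ⟨h, _⟩
    · exact h
    · exact absurd h (by norm_num)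
  obtain ⟨jm, hjm, hjmax⟩ := Finset.exists_max_image (Finset.univ.filter isB) id
    ⟨_, Finset.mem_filter.mpr ⟨Finset.mem_univ _, h2B⟩⟩
  have hjB : isB jm := (Finset.mem_filter.mp hjm).2
  have hj2 : 2 ≤ (jm : ℕ) := hjmax ⟨2, by omega⟩ (Finset.mem_filter.mpr ⟨Finset.mem_univ _, h2B⟩)
  have hmaxB : ∀ i : Fin d, jm < i → ¬ isB i := fun i hi hB =>
    absurd (hjmax i (Finset.mem_filter.mpr ⟨Finset.mem_univ _, hB⟩)) (not_le.mpr hi)
  obtain ⟨N, I, hN, hI, hMI⟩ := hjB
  have hlow : ∀ i : Fin d, i ≤ jm → isB i := by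
    intro i hi
    rcases hAB i with h | ⟨h3, N', Z', _, hZ', hMZ'⟩
    · exact h
    · exfalso
      apply m3 d N' N Z' I (by omega)
      rw [← hMZ', ← hMI]
      exact hM.monotone hi
  have hup : ∀ i : Fin d, jm < i → ∃ Z : Finset (Fin d), Z.card = (i : ℕ) ∧ I ⊆ Z ∧
      M i = fA N Z := by
    intro i hi
    rcases hAB i with h | ⟨h3, N', Z', _, hZ', hMZ'⟩
    · exact absurd h (hmaxB i hi)
    · have h1 : fB N I ⊆ fA N' Z' := by
        rw [← hMZ', ← hMI]
        exact hM.monotone hi.le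
      obtain ⟨h4, h5⟩ := m5 d N N' I Z' hN (by omega) h1
      exact ⟨Z', hZ', h4, by rw [hMZ', h5]⟩
  have hex : ∀ k, k ≤ d → ∃ G : Finset (Fin d), G.card = k ∧
      (∀ i : Fin d, (i : ℕ) + 1 = k → i ≤ jm → M i = fB N G) ∧
      (∀ i : Fin d, (i : ℕ) = k → jm < i → M i = fA N G) := by
    intro k hk
    rcases Nat.eq_zero_or_pos k with rfl | hk0
    · refine ⟨∅, rfl, fun i hi _ => absurd hi (by omega), fun i hi h => ?_⟩
      have : (jm : ℕ) < i := h
      omega
    rcases lt_trichotomy k ((jm : ℕ) + 1) with hlt | heq | hgt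
    · -- type B
      have hkd : k - 1 < d := by omega
      have hle : (⟨k - 1, hkd⟩ : Fin d) ≤ jm := by
        rw [Fin.le_def]; simp only; omega
      obtain ⟨N', I', _, hI', hMI'⟩ := hlow ⟨k - 1, hkd⟩ hle
      let G : Finset (Fin d) :=
        Finset.univ.filter fun x => N + (Pi.single x 1 : X d) ∈ M ⟨k - 1, hkd⟩
      have hG : M ⟨k - 1, hkd⟩ = fB N G := by
        ext T
        constructor
        · intro hT
          have h1 : T ∈ fB N I := by
            rw [← hMI]
            exact hM.monotone hle hT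
          obtain ⟨x, _, rfl⟩ := h1
          exact ⟨x, Finset.mem_filter.mpr ⟨Finset.mem_univ _, hT⟩, rfl⟩
        · rintro ⟨x, hx, rfl⟩
          exact (Finset.mem_filter.mp hx).2
      refine ⟨G, ?_, fun i hi _ => ?_, fun i hi h => ?_⟩
      · have h1 : (fB N G).ncard = (fB N' I').ncard := by rw [← hG, ← hMI']
        rw [ncard_fB, ncard_fB, hI'] at h1
        simp only at h1
        omega
      · have h1 : i = ⟨k - 1, hkd⟩ := Fin.ext (by simp only; omega)
        rw [h1, hG]
      · have : (jm : ℕ) < i := h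
        omega
    · -- the last set of type B
      refine ⟨I, by omega, fun i hi _ => ?_, fun i hi h => ?_⟩
      · have h1 : i = jm := Fin.ext (by omega)
        rw [h1, hMI]
      · obtain ⟨Z, hZ, hIZ, hMZ⟩ := hup i h
        have h1 : I = Z := Finset.eq_of_subset_of_card_le hIZ (by omega)
        rw [hMZ, h1]
    · rcases Nat.lt_or_ge k d with hkd | hkd
      · obtain ⟨Z, hZ, hIZ, hMZ⟩ := hup ⟨k, hkd⟩ (by rw [Fin.lt_def]; simp only; omega)
        refine ⟨Z, hZ, fun i hi h => ?_, fun i hi _ => ?_⟩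
        · have : (i : ℕ) ≤ jm := h
          omega
        · have h1 : i = ⟨k, hkd⟩ := Fin.ext hi
          rw [h1, hMZ]
      · have hkd' : k = d := le_antisymm hk hkd
        refine ⟨Finset.univ, by rw [Finset.card_univ, Fintype.card_fin, hkd'], fun i hi h => ?_,
          fun i hi _ => ?_⟩
        · have : (i : ℕ) ≤ jm := h
          omega
        · have := i.isLt
          omega
  choose! F hF1 hF2 hF3 using hex
  have hjd := jm.isLt
  have hmono : ∀ k < d, F k ⊆ F (k + 1) := by
    intro k hk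
    rcases Nat.eq_zero_or_pos k with rfl | hk0
    · have h0 := hF1 0 (Nat.zero_le _)
      rw [Finset.card_eq_zero] at h0
      rw [h0]
      exact Finset.empty_subset _
    rcases Nat.lt_or_ge k ((jm : ℕ) + 1) with hlt | hge
    · have e1 := hF2 k hk.le ⟨k - 1, by omega⟩ (by simp only; omega)
        (by rw [Fin.le_def]; simp only; omega)
      have e2 := hF2 (k + 1) hk ⟨k, hk⟩ rfl (by rw [Fin.le_def]; simp only; omega)
      apply fB_sub (N := N)
      rw [← e1, ← e2]
      exact hM.monotone (by rw [Fin.le_def]; simp only; omega)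
    · rcases Nat.lt_or_ge (k + 1) d with hkd | hkd
      · have e1 := hF3 k hk.le ⟨k, hk⟩ rfl (by rw [Fin.lt_def]; simp only; omega)
        have e2 := hF3 (k + 1) hk ⟨k + 1, hkd⟩ rfl (by rw [Fin.lt_def]; simp only; omega)
        refine (m4 d N N (F k) (F (k + 1)) (by rw [hF1 k hk.le]; omega) ?_).1
        rw [← e1, ← e2]
        exact hM.monotone (by rw [Fin.le_def]; simp only; omega)
      · have h1 : F (k + 1) = Finset.univ := by
          apply Finset.eq_univ_of_card
          rw [hF1 (k + 1) hk, Fintype.card_fin]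
          omega
        rw [h1]
        exact Finset.subset_univ _
  obtain ⟨π, hπ⟩ := exists_perm F hF1 hmono
  refine ⟨(jm : ℕ) + 1, N, π, by omega, by omega, hN, fun i hi => ?_, fun i hi => ?_⟩
  · rw [hπ _ i.isLt]
    exact hF2 _ i.isLt i rfl (by rw [Fin.le_def]; omega)
  · rw [hπ _ i.isLt.le]
    exact hF3 _ i.isLt.le i rfl (by rw [Fin.lt_def]; omega)

end Pool.Agent.T9h66.DC
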